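import Pool.Agent.P8H16.XP.Stm

/-!
# Project XP: assembly
-/

set_option autoImplicit false

open Finset

namespace Pool.Agent.P8H16.XP

lemma sum_pairs (f : ℕ → ℕ) (k : ℕ) :
    ∑ d ∈ Finset.Icc 1 (2 * k), f d = ∑ i ∈ range k, (f (2 * i + 1) + f (2 * i + 2)) := by
  induction k with
  | zero => simp
  | succ k ih =>
    rw [Finset.sum_range_succ, ← ih, show 2 * (k + 1) = 2 * k + 1 + 1 by ring,
      Finset.sum_Icc_succ_top (by omega), Finset.sum_Icc_succ_top (by omega)]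
    ring

/-- the four distances of a block -/
def DD (q : ℕ × ℕ) : Finset ℕ := {2 * q.1 + 1, 2 * q.1 + 2, 2 * q.2 + 1, 2 * q.2 + 2}

lemma mem_DD {q : ℕ × ℕ} {d : ℕ} (h : d ∈ DD q) : 1 ≤ d ∧ ((d - 1) / 2 = q.1 ∨ (d - 1) / 2 = q.2) := by
  simp only [DD, Finset.mem_insert, Finset.mem_singleton] at h
  omega

lemma DD_of {q : ℕ × ℕ} {d : ℕ} (h1 : 1 ≤ d) (h : (d - 1) / 2 = q.1 ∨ (d - 1) / 2 = q.2) : d ∈ DD q := by
  simp only [DD, Finset.mem_insert, Finset.mem_singleton]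
  omega

theorem blocks (hPRT : S_PRT) (k : ℕ) (hk : Even k) (S : Finset ℕ) (hS : S ⊆ Finset.Icc 1 (2 * k))
    (hc : S.card = k) : ∃ L : List (ℕ × ℕ), 2 * L.length = k ∧
      (∀ q ∈ L, q.1 < k ∧ q.2 < k ∧ q.1 ≠ q.2 ∧
        ((2 * q.1 + 1 ∈ S ∧ 2 * q.1 + 2 ∈ S ∧ 2 * q.2 + 1 ∉ S ∧ 2 * q.2 + 2 ∉ S) ∨
          ((2 * q.1 + 1 ∈ S ↔ 2 * q.1 + 2 ∉ S) ∧ (2 * q.2 + 1 ∈ S ↔ 2 * q.2 + 2 ∉ S)))) ∧
      (∀ d ∈ Finset.Icc 1 (2 * k), ∃ b : Fin L.length, d ∈ DD (L.get b)) ∧
      (∀ b b' : Fin L.length, ∀ d, d ∈ DD (L.get b) → d ∈ DD (L.get b') → b = b') := by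
  classical
  set A := (range k).filter (fun i => 2 * i + 1 ∈ S ∧ 2 * i + 2 ∈ S) with hA
  set B := (range k).filter (fun i => 2 * i + 1 ∉ S ∧ 2 * i + 2 ∉ S) with hB
  set M := (range k).filter (fun i => 2 * i + 1 ∈ S ↔ 2 * i + 2 ∉ S) with hM
  have hAB : Disjoint A B := by
    rw [Finset.disjoint_left]; intro i h1 h2
    simp only [hA, hB, Finset.mem_filter] at h1 h2; tauto
  have hAM : Disjoint A M := by
    rw [Finset.disjoint_left]; intro i h1 h2
    simp only [hA, hM, Finset.mem_filter] at h1 h2; tauto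
  have hBM : Disjoint B M := by
    rw [Finset.disjoint_left]; intro i h1 h2
    simp only [hB, hM, Finset.mem_filter] at h1 h2; tauto
  have hU : A ∪ B ∪ M = range k := by
    ext i
    simp only [hA, hB, hM, Finset.mem_union, Finset.mem_filter]
    tauto
  have hcard : A.card + B.card + M.card = k := by
    rw [← Finset.card_union_of_disjoint hAB, ← Finset.card_union_of_disjoint
      (Finset.disjoint_union_left.2 ⟨hAM, hBM⟩), hU, Finset.card_range]
  have hS2 : 2 * A.card + M.card = k := by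
    have e1 : S.card = ∑ d ∈ Finset.Icc 1 (2 * k), if d ∈ S then 1 else 0 := by
      rw [← Finset.card_filter]
      congr 1
      ext d
      simp only [Finset.mem_filter]
      exact ⟨fun h => ⟨hS h, h⟩, fun h => h.2⟩
    rw [sum_pairs] at e1
    have e2 : ∀ i ∈ range k, ((if 2 * i + 1 ∈ S then 1 else 0) + (if 2 * i + 2 ∈ S then 1 else 0) : ℕ) =
        2 * (if (2 * i + 1 ∈ S ∧ 2 * i + 2 ∈ S) then 1 else 0) + (if (2 * i + 1 ∈ S ↔ 2 * i + 2 ∉ S) then 1 else 0) := by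
      intro i _
      by_cases h1 : 2 * i + 1 ∈ S <;> by_cases h2 : 2 * i + 2 ∈ S <;> simp [h1, h2]
    rw [Finset.sum_congr rfl e2, Finset.sum_add_distrib, ← Finset.mul_sum, ← Finset.card_filter,
      ← Finset.card_filter] at e1
    rw [← hA, ← hM] at e1
    omega
  have hABc : A.card = B.card := by omega
  have hMe : Even M.card := by
    obtain ⟨r, hr⟩ := hk
    exact ⟨r - A.card, by omega⟩
  obtain ⟨L, hN, hL, hq⟩ := hPRT A B M hAB hAM hBM hABc hMe
  have hlen : (L.flatMap fun q => [q.1, q.2]).length = 2 * L.length := by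
    clear hN hL hq
    induction L with
    | nil => rfl
    | cons a t ih => simp only [List.flatMap_cons, List.length_append, List.length_cons, List.length_nil, ih]; ring
  have htf : (L.flatMap fun q => [q.1, q.2]).toFinset = range k := by
    ext x
    rw [List.mem_toFinset, hL, hU]
  have hlk : 2 * L.length = k := by
    rw [← hlen, ← List.toFinset_card_of_nodup hN, htf, Finset.card_range]
  rw [List.nodup_flatMap] at hN
  obtain ⟨hN1, hN2⟩ := hN
  have hmem : ∀ q ∈ L, q.1 < k ∧ q.2 < k := by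
    intro q hqL
    constructor
    · have : q.1 ∈ (L.flatMap fun q => [q.1, q.2]) := List.mem_flatMap.2 ⟨q, hqL, by simp⟩
      rw [hL, hU, Finset.mem_range] at this; exact this
    · have : q.2 ∈ (L.flatMap fun q => [q.1, q.2]) := List.mem_flatMap.2 ⟨q, hqL, by simp⟩
      rw [hL, hU, Finset.mem_range] at this; exact this
  refine ⟨L, hlk, ?_, ?_, ?_⟩
  · intro q hqL
    refine ⟨(hmem q hqL).1, (hmem q hqL).2, ?_, ?_⟩
    · have := hN1 q hqL
      simpa using this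
    · rcases hq q hqL with ⟨h1, h2⟩ | ⟨h1, h2⟩
      · simp only [hA, hB, Finset.mem_filter] at h1 h2
        exact Or.inl ⟨h1.2.1, h1.2.2, h2.2.1, h2.2.2⟩
      · simp only [hM, Finset.mem_filter] at h1 h2
        exact Or.inr ⟨h1.2, h2.2⟩
  · intro d hd
    rw [Finset.mem_Icc] at hd
    have : (d - 1) / 2 ∈ (L.flatMap fun q => [q.1, q.2]) := by
      rw [hL, hU, Finset.mem_range]; omega
    obtain ⟨q, hqL, hx⟩ := List.mem_flatMap.1 this
    obtain ⟨b, hb⟩ := List.mem_iff_get.1 hqL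
    refine ⟨b, DD_of hd.1 ?_⟩
    rw [hb]
    simpa using hx
  · intro b b' d h1 h2
    by_contra hne
    have key : ∀ b b' : Fin L.length, b < b' → d ∈ DD (L.get b) → d ∈ DD (L.get b') → False := by
      intro b b' hlt h1 h2
      have hp := (List.pairwise_iff_get.1 hN2) b b' hlt
      have m1 := (mem_DD h1).2
      have m2 := (mem_DD h2).2
      refine hp (a := (d - 1) / 2) ?_ ?_
      · simpa using m1
      · simpa using m2
    rcases lt_or_gt_of_ne hne with h | h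
    · exact key b b' h h1 h2
    · exact key b' b h h2 h1

theorem asm (hPRT : S_PRT) (hBLK : S_BLK) (hCOL : S_COL) (hPTS : S_PTS) (k : ℕ) (hk : Even k)
    (hp : (4 * k + 1).Prime) (S : Finset ℕ) (hS : S ⊆ Finset.Icc 1 (2 * k)) (hc : S.card = k) : Good k S := by
  classical
  have hk2 : 2 ≤ k := by
    obtain ⟨r, hr⟩ := hk
    rcases Nat.eq_zero_or_pos k with h | h
    · subst h; exact absurd hp (by norm_num)
    · omega
  obtain ⟨L, hL, hq, hcov, huniq⟩ := blocks hPRT k hk S hS hc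
  have hB := fun q (hqL : q ∈ L) => hBLK k q.1 q.2 S (hq q hqL).1 (hq q hqL).2.1 (hq q hqL).2.2.1 (hq q hqL).2.2.2
  obtain ⟨n, hn⟩ : ∃ n, L.length = n + 1 := ⟨L.length - 1, by omega⟩
  have hB' : ∀ b : Fin L.length, ∃ (V : Finset (ZMod (4 * k + 1))) (y : ℕ → ZMod (4 * k + 1)), V.card ≤ 4 ∧
      (∀ d ∈ DD (L.get b), y d ∈ V ∧ y d + d ∈ V) ∧
      (∀ d ∈ DD (L.get b), ∀ d' ∈ DD (L.get b), d ≠ d' → (d ∈ S ↔ d' ∈ S) →
        y d ≠ y d' ∧ y d ≠ y d' + d' ∧ y d + d ≠ y d' ∧ y d + d ≠ y d' + d') ∧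
      (∀ v ∈ V, (∃ d ∈ DD (L.get b), d ∈ S ∧ (v = y d ∨ v = y d + d)) ∧
        (∃ d ∈ DD (L.get b), d ∉ S ∧ (v = y d ∨ v = y d + d))) := fun b => hB _ (List.get_mem L b)
  choose V y hV1 hV2 hV3 hV4 using hB'
  have hR := hPTS n (4 * k + 1) 8 hp (by omega)
    (fun i j => (V (Fin.cast hn.symm i) ×ˢ V (Fin.cast hn.symm j)).image (fun v => v.1 - v.2))
    (fun i j _ => by
      refine Finset.card_image_le.trans ?_
      rw [Finset.card_product]
      exact (Nat.mul_le_mul (hV1 _) (hV1 _)).trans (by norm_num))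
  obtain ⟨x₀, hx₀⟩ := hR
  set x : Fin L.length → ZMod (4 * k + 1) := fun b => x₀ (Fin.cast hn b) with hx
  have hdis0 : ∀ b b' : Fin L.length, b < b' → ∀ v ∈ V b, ∀ w ∈ V b', x b + v ≠ x b' + w := by
    intro b b' hlt v hv w hw he
    refine hx₀ (Fin.cast hn b) (Fin.cast hn b') hlt ?_
    refine Finset.mem_image.2 ⟨(v, w), Finset.mem_product.2 ⟨?_, ?_⟩, ?_⟩
    · simpa using hv
    · simpa using hw
    · simp only [hx] at he
      linear_combination he
  have hdis : ∀ b b' : Fin L.length, b ≠ b' → ∀ v ∈ V b, ∀ w ∈ V b', x b + v ≠ x b' + w := by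
    intro b b' hne v hv w hw he
    rcases lt_or_gt_of_ne hne with h | h
    · exact hdis0 b b' h v hv w hw he
    · exact hdis0 b' b h w hw v hv he.symm
  have hcov' : ∀ d, ∃ b : Fin L.length, d ∈ Finset.Icc 1 (2 * k) → d ∈ DD (L.get b) := by
    intro d
    by_cases hd : d ∈ Finset.Icc 1 (2 * k)
    · obtain ⟨b, hb⟩ := hcov d hd
      exact ⟨b, fun _ => hb⟩
    · exact ⟨⟨0, by omega⟩, fun h => absurd h hd⟩
  choose β hβ using hcov'
  have hDDI : ∀ b : Fin L.length, ∀ d ∈ DD (L.get b), d ∈ Finset.Icc 1 (2 * k) := by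
    intro b d hd
    have h1 := (hq _ (List.get_mem L b)).1
    have h2 := (hq _ (List.get_mem L b)).2.1
    simp only [DD, Finset.mem_insert, Finset.mem_singleton] at hd
    rw [Finset.mem_Icc]
    omega
  have hβu : ∀ b : Fin L.length, ∀ d ∈ DD (L.get b), β d = b := fun b d hd =>
    huniq _ _ d (hβ d (hDDI b d hd)) hd
  have tr : ∀ (P : ℕ → Prop), (∀ b, ∀ v ∈ V b, ∃ d ∈ DD (L.get b), P d ∧ (v = y b d ∨ v = y b d + d)) →
      ∀ v, (∃ d ∈ Finset.Icc 1 (2 * k), (v = x (β d) + y (β d) d ∨ v = x (β d) + y (β d) d + d)) →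
      ∃ d ∈ Finset.Icc 1 (2 * k), P d ∧ (v = x (β d) + y (β d) d ∨ v = x (β d) + y (β d) d + d) := by
    rintro P hP v ⟨d, hd, hv⟩
    have hvV : ∃ w ∈ V (β d), v = x (β d) + w := by
      rcases hv with hv | hv
      · exact ⟨_, (hV2 _ d (hβ d hd)).1, hv⟩
      · exact ⟨_, (hV2 _ d (hβ d hd)).2, by rw [hv]; ring⟩
    obtain ⟨w, hw, hvw⟩ := hvV
    obtain ⟨d', hd', hPd', hw'⟩ := hP _ w hw
    refine ⟨d', hDDI _ d' hd', hPd', ?_⟩
    rw [hβu _ d' hd', hvw]
    rcases hw' with h | h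
    · left; rw [h]
    · right; rw [h]; ring
  refine hCOL k hk2 hp S hS hc (fun d => x (β d) + y (β d) d) ?_ ?_
  · intro d hd d' hd' hne hSS
    by_cases hb : β d = β d'
    · have := hV3 (β d) d (hβ d hd) d' (by rw [hb]; exact hβ d' hd') hne hSS
      rw [← hb]
      refine ⟨?_, ?_, ?_, ?_⟩
      · intro h; exact this.1 (by linear_combination h)
      · intro h; exact this.2.1 (by linear_combination h)
      · intro h; exact this.2.2.1 (by linear_combination h)
      · intro h; exact this.2.2.2 (by linear_combination h)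
    · have h1 := hV2 _ d (hβ d hd)
      have h2 := hV2 _ d' (hβ d' hd')
      refine ⟨?_, ?_, ?_, ?_⟩
      · exact hdis _ _ hb _ h1.1 _ h2.1
      · intro h; exact hdis _ _ hb _ h1.1 _ h2.2 (by linear_combination h)
      · intro h; exact hdis _ _ hb _ h1.2 _ h2.1 (by linear_combination h)
      · intro h; exact hdis _ _ hb _ h1.2 _ h2.2 (by linear_combination h)
  · intro v
    constructor
    · rintro ⟨d, hd, -, hv⟩
      exact tr (fun d => d ∉ S) (fun b v hv => (hV4 b v hv).2) v ⟨d, hd, hv⟩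
    · rintro ⟨d, hd, -, hv⟩
      exact tr (fun d => d ∈ S) (fun b v hv => (hV4 b v hv).1) v ⟨d, hd, hv⟩

end Pool.Agent.P8H16.XP
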