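import Pool.Agent.P8H16.XP.Stm
import Pool.Agent.W140.TF.Pts
import Pool.Agent.W284.TF.Dys

/-!
# Project XP: the placement of the blocks (from the library)
-/

set_option autoImplicit false

namespace Pool.Agent.P8H16.XP

theorem pts : S_PTS := Pool.Agent.W140.TF.nul Pool.Agent.W284.TF.s_dys

end Pool.Agent.P8H16.XP
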