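import Mathlib

/-!
# Project XP (MP_45dba8_co): extended Petersen graphs, statements of the packages

THEOREM. Let `n = 4k+1` be a prime with `k` even. For every `S ⊆ {1,...,2k}` with `k` elements the extended Petersen graph
`XP(2n, S)` has a proper edge colouring with `2k+1` colours.

Proof. (COL) It is enough to find for every distance `d ∈ {1,...,2k}` an edge `e_d = {a d, a d + d}` of `ZMod n` such that the edges
`e_d`, `d ∈ S`, are disjoint, the edges `e_d`, `d ∉ S`, are disjoint, and both families have the same union `W`.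
(PRT, BLK) The pairs `{2i+1, 2i+2}`, `i < k`, are of the types `SS`, `TT` (`T` the complement) and mixed; as many `SS` as `TT`, so
the number of mixed pairs is even. Combine an `SS` with a `TT`, or two mixed pairs: four distances with a signed sum `0`, two in `S`
and two in `T`, so they are the sides of a closed walk with four different vertices which alternates between `S` and `T`.
(ASM) These `k/2` quadruples of vertices can be translated to disjoint places since `8 (k/2) + 1 ≤ n` (Dyson's constant term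
identity and the combinatorial Nullstellensatz, in the library).
-/

set_option autoImplicit false

open Finset

namespace Pool.Agent.P8H16.XP

/-- PACKAGE PRT (50 lines). Strong induction on the number of elements: if `A` is not empty take `a ∈ A`, `b ∈ B` (`B` is not empty) and
erase them; if `A` is empty then `B` is, and if `M` is not empty it has two elements (even cardinality); erase them. -/
def S_PRT : Prop := ∀ A B M : Finset ℕ, Disjoint A B → Disjoint A M → Disjoint B M → A.card = B.card → Even M.card →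
  ∃ L : List (ℕ × ℕ), (L.flatMap fun q => [q.1, q.2]).Nodup ∧
    (∀ x, (x ∈ L.flatMap fun q => [q.1, q.2]) ↔ x ∈ A ∪ B ∪ M) ∧
    ∀ q ∈ L, (q.1 ∈ A ∧ q.2 ∈ B) ∨ (q.1 ∈ M ∧ q.2 ∈ M)

/-- PACKAGE BLK (100 lines). `n = 4k+1`. With `a = 2i+1`, `b = 2j+1`.
Case 1 (`a, a+1 ∈ S`, `b, b+1 ∉ S`): the vertices `0, a+1, a+1+b, b+1` (sides `a+1, b, a, b+1`).
Case 2 (both mixed): `{a, a+1} = {s, t}`, `{b, b+1} = {s', t'}` with `s, s' ∈ S`, `t, t' ∉ S`. If `s - t = s' - t'`: the vertices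
`0, s, s + t' = s' + t, t` (sides `s, t', s', t`). If `s - t = -(s' - t')`: the vertices `0, s, s - t', s - t' + s' = t`.
(Four subcases.) All vertices are different since `1 ≤ d ≤ 2k` for the distances, so two different distances are not congruent and
their sum is not `0` modulo `4k+1`. `y d` is the end of the side `d` with `y d + d` the other end. -/
def S_BLK : Prop := ∀ (k i j : ℕ) (S : Finset ℕ), i < k → j < k → i ≠ j →
  ((2 * i + 1 ∈ S ∧ 2 * i + 2 ∈ S ∧ 2 * j + 1 ∉ S ∧ 2 * j + 2 ∉ S) ∨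
    ((2 * i + 1 ∈ S ↔ 2 * i + 2 ∉ S) ∧ (2 * j + 1 ∈ S ↔ 2 * j + 2 ∉ S))) →
  ∃ (V : Finset (ZMod (4 * k + 1))) (y : ℕ → ZMod (4 * k + 1)), V.card ≤ 4 ∧
    (∀ d ∈ ({2 * i + 1, 2 * i + 2, 2 * j + 1, 2 * j + 2} : Finset ℕ), y d ∈ V ∧ y d + d ∈ V) ∧
    (∀ d ∈ ({2 * i + 1, 2 * i + 2, 2 * j + 1, 2 * j + 2} : Finset ℕ),
      ∀ d' ∈ ({2 * i + 1, 2 * i + 2, 2 * j + 1, 2 * j + 2} : Finset ℕ), d ≠ d' → (d ∈ S ↔ d' ∈ S) →
      y d ≠ y d' ∧ y d ≠ y d' + d' ∧ y d + d ≠ y d' ∧ y d + d ≠ y d' + d') ∧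
    (∀ v ∈ V, (∃ d ∈ ({2 * i + 1, 2 * i + 2, 2 * j + 1, 2 * j + 2} : Finset ℕ), d ∈ S ∧ (v = y d ∨ v = y d + d)) ∧
      (∃ d ∈ ({2 * i + 1, 2 * i + 2, 2 * j + 1, 2 * j + 2} : Finset ℕ), d ∉ S ∧ (v = y d ∨ v = y d + d)))

/-- the conclusion for `k` and `S`, in the form of the frozen statement -/
def Good (k : ℕ) (S : Finset ℕ) : Prop := ∀ G : SimpleGraph (ZMod (4 * k + 1) × Fin 2),
    (∀ p q : ZMod (4 * k + 1) × Fin 2, G.Adj p q ↔
      ((p.2 = 0 ∧ q.2 = 0 ∧ min (p.1 - q.1).val (q.1 - p.1).val ∈ S) ∨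
       (p.2 = 1 ∧ q.2 = 1 ∧
          min (p.1 - q.1).val (q.1 - p.1).val ∈ Finset.Icc 1 (2 * k) \ S) ∨
       (p.1 = q.1 ∧ p.2 ≠ q.2))) →
    ∃ c : Sym2 (ZMod (4 * k + 1) × Fin 2) → Fin (2 * k + 1),
      ∀ e ∈ G.edgeSet, ∀ f ∈ G.edgeSet, e ≠ f →
        (∃ v, v ∈ e ∧ v ∈ f) → c e ≠ c f

/-- PACKAGE COL (120 lines). Let `W` be the set of all `a d`, `a d + d`, `d ∈ S` (at most `2k` elements; the same set for `d ∉ S`), and
`m : ZMod n → Fin (2k+1)` with `m = 0` off `W`, `m ≠ 0` on `W` and injective on `W`. Colours: the spoke at `x` has the colour `m x`; an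
edge `{x, x + d}` (in either layer), `x = a d + j d` with `0 ≤ j < n` (`j = ((x - a d) / d).val`, `n` is prime), has the colour `0` if
`j = 0`, `m (a d)` if `j` is odd, `m (a d + d)` if `j ≥ 2` is even. At a vertex `x` the two edges of distance `d` have the
colours of the indices `j` and `j - 1` (cyclically; `n - 1` is even): two different colours of
`{0, m (a d), m (a d + d)}`, and `0` is used only if `x ∈ e_d`; if `x = a d` the colour `m (a d) = m x` is not used, if `x = a d + d` the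
colour `m (a d + d) = m x` is not used. So no two colours at a vertex agree. In Lean: let `R e c` be the relation `(∃ x, e = s((x,0),(x,1)) ∧
c = m x) ∨ (∃ x i d, e = s((x,i),(x+d,i)) ∧ d ∈ S or ∉ S according to i ∧ c = the colour above)`, every edge has a colour with `R`, choose one (no
uniqueness needed), and compare two edges with a common vertex. -/
def S_COL : Prop := ∀ k : ℕ, 2 ≤ k → (4 * k + 1).Prime → ∀ S : Finset ℕ, S ⊆ Finset.Icc 1 (2 * k) → S.card = k →
  ∀ a : ℕ → ZMod (4 * k + 1),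
  (∀ d ∈ Finset.Icc 1 (2 * k), ∀ d' ∈ Finset.Icc 1 (2 * k), d ≠ d' → (d ∈ S ↔ d' ∈ S) →
    a d ≠ a d' ∧ a d ≠ a d' + d' ∧ a d + d ≠ a d' ∧ a d + d ≠ a d' + d') →
  (∀ v, (∃ d ∈ Finset.Icc 1 (2 * k), d ∈ S ∧ (v = a d ∨ v = a d + d)) ↔
    (∃ d ∈ Finset.Icc 1 (2 * k), d ∉ S ∧ (v = a d ∨ v = a d + d))) → Good k S

/-- the placement of the blocks, from the library (`Pool.Agent.W142.TF.S_pts`) -/
def S_PTS : Prop := ∀ n p l : ℕ, p.Prime → (n + 1) * l + 1 ≤ p →
  ∀ R : Fin (n + 1) → Fin (n + 1) → Finset (ZMod p), (∀ i j, i < j → (R i j).card ≤ 2 * l) →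
    ∃ x : Fin (n + 1) → ZMod p, ∀ i j, i < j → x j - x i ∉ R i j

end Pool.Agent.P8H16.XP
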